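import Pool.Agent.Helper92.FR.GoalsA

set_option autoImplicit false

namespace Pool.Agent.Helper34.FR

open MeasureTheory
open Pool.Agent.Helper92.FR

/-- the slice -/
def Ks {N d : ℕ} (C : Fin N → Fin d → ℝ) (S w : Fin d → ℝ) : Set (Fin N → ℝ) :=
  {x : Fin N → ℝ | (∀ j, 0 ≤ x j ∧ x j ≤ 1) ∧
    ∀ i, 0 ≤ (∑ j, C j i * x j) - w i ∧ (∑ j, C j i * x j) - w i ≤ S i}

/-- all the slices -/
def KK {N d : ℕ} (C : Fin N → Fin d → ℝ) (S : Fin d → ℝ) : Set ((Fin d → ℝ) × (Fin N → ℝ)) :=
  {p | (∀ j, 0 ≤ p.2 j ∧ p.2 j ≤ 1) ∧
    ∀ i, 0 ≤ (∑ j, C j i * p.2 j) - p.1 i ∧ (∑ j, C j i * p.2 j) - p.1 i ≤ S i}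

lemma isClosed_KK {N d : ℕ} (C : Fin N → Fin d → ℝ) (S : Fin d → ℝ) : IsClosed (KK C S) := by
  have h : KK C S = (⋂ j : Fin N, {p : (Fin d → ℝ) × (Fin N → ℝ) | 0 ≤ p.2 j} ∩ {p | p.2 j ≤ 1}) ∩
      ⋂ i : Fin d, {p : (Fin d → ℝ) × (Fin N → ℝ) | 0 ≤ (∑ j, C j i * p.2 j) - p.1 i} ∩
        {p | (∑ j, C j i * p.2 j) - p.1 i ≤ S i} := by
    ext p
    simp [KK, Set.mem_iInter]
  rw [h]
  refine IsClosed.inter (isClosed_iInter fun j => IsClosed.inter ?_ ?_)
    (isClosed_iInter fun i => IsClosed.inter ?_ ?_)
  · exact isClosed_le (by fun_prop) (by fun_prop)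
  · exact isClosed_le (by fun_prop) (by fun_prop)
  · exact isClosed_le (by fun_prop) (by fun_prop)
  · exact isClosed_le (by fun_prop) (by fun_prop)

lemma preim {N d : ℕ} (C : Fin N → Fin d → ℝ) (S w : Fin d → ℝ) :
    Prod.mk w ⁻¹' (KK C S) = Ks C S w := rfl

lemma meas_Ks {N d : ℕ} (C : Fin N → Fin d → ℝ) (S w : Fin d → ℝ) : MeasurableSet (Ks C S w) := by
  rw [← preim]
  exact measurable_prodMk_left (isClosed_KK C S).measurableSet

lemma ff_eq {N d : ℕ} (C : Fin N → Fin d → ℝ) (S w : Fin d → ℝ) :
    ff C S w = (volume (Ks C S w)).toReal / ∏ i, S i := rfl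

theorem lcf (hpl : PlStmt) : LcfStmt := by
  classical
  intro N d C S hS
  have hP : 0 < ∏ i, S i := Finset.prod_pos fun i _ => hS i
  refine ⟨?_, ?_, ?_⟩
  · intro w w' t ht0 ht1
    have ht1' : 0 < 1 - t := by linarith
    set w2 : Fin d → ℝ := fun i => (1 - t) * w i + t * w' i with hw2
    have key := hpl N ((Ks C S w).indicator 1) ((Ks C S w').indicator 1) ((Ks C S w2).indicator 1) t 1
      ht0 ht1
      (measurable_one.indicator (meas_Ks C S w)) (measurable_one.indicator (meas_Ks C S w'))
      (measurable_one.indicator (meas_Ks C S w2))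
      (fun x => by by_cases h : x ∈ Ks C S w <;> simp [h])
      (fun x => by by_cases h : x ∈ Ks C S w' <;> simp [h])
      (fun x => by by_cases h : x ∈ Ks C S w2 <;> simp [h])
      (by
        rintro x ⟨i, hi⟩
        have hno : ∀ v : Fin d → ℝ, x ∉ Ks C S v := by
          intro v hv
          have h1 := hv.1 i
          rw [abs_of_nonneg h1.1] at hi
          linarith [h1.2]
        simp [hno])
      (by
        intro x y
        by_cases hx : x ∈ Ks C S w
        · by_cases hy : y ∈ Ks C S w'
          · have hxy : (fun i => (1 - t) * x i + t * y i) ∈ Ks C S w2 := by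
              refine ⟨?_, ?_⟩
              · intro j
                have h1 := hx.1 j
                have h2 := hy.1 j
                constructor
                · have := mul_nonneg ht1'.le h1.1
                  have := mul_nonneg ht0.le h2.1
                  linarith
                · have := mul_le_mul_of_nonneg_left h1.2 ht1'.le
                  have := mul_le_mul_of_nonneg_left h2.2 ht0.le
                  linarith
              · intro i
                have h1 := hx.2 i
                have h2 := hy.2 i
                have hsum : (∑ j, C j i * ((1 - t) * x j + t * y j)) =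
                    (1 - t) * (∑ j, C j i * x j) + t * ∑ j, C j i * y j := by
                  rw [Finset.mul_sum, Finset.mul_sum, ← Finset.sum_add_distrib]
                  apply Finset.sum_congr rfl
                  intro j _
                  ring
                rw [hsum, hw2]
                beta_reduce
                have a1 := mul_nonneg ht1'.le h1.1
                have a2 := mul_nonneg ht0.le h2.1
                have a3 := mul_le_mul_of_nonneg_left h1.2 ht1'.le
                have a4 := mul_le_mul_of_nonneg_left h2.2 ht0.le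
                constructor
                · linarith
                · linarith
            rw [Set.indicator_of_mem hx, Set.indicator_of_mem hy, Set.indicator_of_mem hxy]
            simp
          · rw [Set.indicator_of_notMem hy, Real.zero_rpow ht0.ne', mul_zero]
            exact Set.indicator_nonneg (fun _ _ => zero_le_one) _
        · rw [Set.indicator_of_notMem hx, Real.zero_rpow ht1'.ne', zero_mul]
          exact Set.indicator_nonneg (fun _ _ => zero_le_one) _)
    rw [integral_indicator_one (meas_Ks C S w), integral_indicator_one (meas_Ks C S w'),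
      integral_indicator_one (meas_Ks C S w2)] at key
    rw [ff_eq, ff_eq, ff_eq]
    have hPP : (∏ i, S i) = (∏ i, S i) ^ (1 - t) * (∏ i, S i) ^ t := by
      rw [← Real.rpow_add hP]
      simp
    rw [Real.div_rpow ENNReal.toReal_nonneg hP.le, Real.div_rpow ENNReal.toReal_nonneg hP.le,
      div_mul_div_comm, ← hPP]
    exact div_le_div_of_nonneg_right key hP.le
  · have h1 : Measurable fun w => volume (Prod.mk w ⁻¹' (KK C S)) :=
      measurable_measure_prodMk_left (isClosed_KK C S).measurableSet
    exact h1.ennreal_toReal.div_const _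
  · intro w
    rw [ff_eq]
    exact div_nonneg ENNReal.toReal_nonneg hP.le

end Pool.Agent.Helper34.FR
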