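import Pool.Agent.Helper92.FR.GoalsB

set_option autoImplicit false

namespace Pool.Agent.Helper34.FR

open Pool.Agent.Helper92.FR Pool.Agent.Bin

theorem trr : TrrStmt := by
  intro x
  obtain ⟨a, b, r⟩ := x
  obtain ⟨a⟩ := a
  obtain ⟨b⟩ := b
  obtain ⟨r⟩ := r
  unfold toRQ Qn.val Pool.Agent.Helper92.VP.RQ.val
  simp only [BN.val_add, BN.val_sub, BN.lt_def, decide_eq_true_eq]
  by_cases h : a < b
  · have h1 : a - b = 0 := by omega
    rw [if_pos h, h1, zero_add, Nat.cast_sub h.le]
    push_cast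
    ring
  · have h1 : b - a = 0 := by omega
    rw [if_neg h, h1, add_zero, Nat.cast_sub (not_lt.1 h)]
    push_cast
    ring

end Pool.Agent.Helper34.FR
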